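import Pool.Agent.helper36.BP.SpecD

/-!
# Project bp, row FJB: the Fejer kernel
-/

set_option autoImplicit false

open Finset
open Pool.Agent.FI Pool.Agent.HK
open Pool.Agent.CH (nit rgh ll2)
open Pool.Agent.SK (tr0 Th)

noncomputable section

namespace Pool.Agent.BP

/-- the exponential `e(mu)` -/
def FJB_E (u : ℝ) (m : ℤ) : ℂ := Complex.exp (((2 * Real.pi * m * u : ℝ) : ℂ) * Complex.I)

theorem FJB_E_add (u : ℝ) (a b : ℤ) : FJB_E u (a + b) = FJB_E u a * FJB_E u b := by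
  unfold FJB_E
  rw [← Complex.exp_add]
  congr 1
  push_cast
  ring

theorem FJB_E_zero (u : ℝ) : FJB_E u 0 = 1 := by
  simp [FJB_E]

theorem FJB_E_norm (u : ℝ) (a : ℤ) : ‖FJB_E u a‖ = 1 := by
  unfold FJB_E
  rw [Complex.norm_exp_ofReal_mul_I]

theorem FJB_E_conj (u : ℝ) (a : ℤ) : (starRingEnd ℂ) (FJB_E u a) = FJB_E u (-a) := by
  unfold FJB_E
  rw [← Complex.exp_conj]
  congr 1
  rw [map_mul, Complex.conj_ofReal, Complex.conj_I]
  push_cast
  ring

theorem FJB_E_neg (u : ℝ) (a : ℤ) : FJB_E (-u) a = FJB_E u (-a) := by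
  unfold FJB_E
  congr 1
  push_cast
  ring

theorem FJB_E_add_one (u : ℝ) (a : ℤ) : FJB_E (u + 1) a = FJB_E u a := by
  unfold FJB_E
  rw [Complex.exp_eq_exp_iff_exists_int]
  exact ⟨a, by push_cast; ring⟩

/-- the geometric sum -/
def FJB_D (K : ℕ) (u : ℝ) : ℂ := ∑ m ∈ range K, FJB_E u m

theorem FJB_card (K : ℕ) (m : ℤ) :
    ((range K ×ˢ range K).filter (fun x : ℕ × ℕ => (x.1 : ℤ) - x.2 = m)).card =
      K - m.natAbs := by
  have h : (range K ×ˢ range K).filter (fun x : ℕ × ℕ => (x.1 : ℤ) - x.2 = m) =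
      (range (K - m.natAbs)).image (fun b : ℕ => (b + m.toNat, b + (-m).toNat)) := by
    ext ⟨a, b⟩
    simp only [mem_filter, mem_product, mem_range, mem_image, Prod.mk.injEq]
    constructor
    · rintro ⟨⟨ha, hb⟩, h⟩
      exact ⟨min a b, by omega, by omega, by omega⟩
    · rintro ⟨c, hc, h1, h2⟩
      omega
  rw [h, card_image_of_injective, card_range]
  intro x y hxy
  simp only [Prod.mk.injEq] at hxy
  omega

theorem FJB_sq (K : ℕ) (u : ℝ) : FJB_D K u * (starRingEnd ℂ) (FJB_D K u) = (K : ℂ) * fjk K u := by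
  rcases Nat.eq_zero_or_pos K with rfl | hK
  · simp [FJB_D]
  have h1 : FJB_D K u * (starRingEnd ℂ) (FJB_D K u) =
      ∑ x ∈ range K ×ˢ range K, FJB_E u ((x.1 : ℤ) - x.2) := by
    unfold FJB_D
    rw [map_sum, sum_mul_sum, sum_product]
    refine sum_congr rfl fun a _ => sum_congr rfl fun b _ => ?_
    rw [FJB_E_conj, ← FJB_E_add, sub_eq_add_neg]
  rw [h1]
  have h2 : ∀ x ∈ range K ×ˢ range K, (fun x : ℕ × ℕ => (x.1 : ℤ) - x.2) x ∈
      Icc (-(K : ℤ)) K := by
    intro x hx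
    rw [mem_product, mem_range, mem_range] at hx
    rw [mem_Icc]
    constructor <;> simp only <;> omega
  rw [← sum_fiberwise_of_maps_to h2]
  unfold fjk
  rw [mul_sum]
  refine sum_congr rfl fun m hm => ?_
  have h3 : ∑ x ∈ (range K ×ˢ range K).filter (fun x : ℕ × ℕ => (x.1 : ℤ) - x.2 = m),
      FJB_E u ((x.1 : ℤ) - x.2) =
      ∑ x ∈ (range K ×ˢ range K).filter (fun x : ℕ × ℕ => (x.1 : ℤ) - x.2 = m), FJB_E u m := by
    refine sum_congr rfl fun x hx => ?_
    rw [(mem_filter.mp hx).2]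
  rw [h3, sum_const, FJB_card, nsmul_eq_mul, ← mul_assoc]
  congr 1
  rw [mem_Icc] at hm
  have h4 : m.natAbs ≤ K := by omega
  rw [Nat.cast_sub h4]
  have hK' : (K : ℂ) ≠ 0 := by exact_mod_cast hK.ne'
  have h6 : ((m.natAbs : ℕ) : ℝ) = |(m : ℝ)| := by
    rw [← Int.cast_abs, Int.abs_eq_natAbs, Int.cast_natCast]
  have h5 : ((m.natAbs : ℕ) : ℂ) = ((|(m : ℝ)| : ℝ) : ℂ) := by
    rw [← h6, Complex.ofReal_natCast]
  rw [h5]
  push_cast
  field_simp

theorem FJB_eq (K : ℕ) (hK : 1 ≤ K) (u : ℝ) : fjk K u = ((‖FJB_D K u‖ ^ 2 / K : ℝ) : ℂ) := by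
  have hK' : (K : ℂ) ≠ 0 := by
    have : K ≠ 0 := by omega
    exact_mod_cast this
  have h := FJB_sq K u
  rw [Complex.mul_conj, Complex.normSq_eq_norm_sq] at h
  push_cast at h ⊢
  rw [h]
  field_simp

theorem FJB_D_le (K : ℕ) (u : ℝ) : ‖FJB_D K u‖ ≤ K := by
  unfold FJB_D
  refine (norm_sum_le _ _).trans ?_
  simp [FJB_E_norm]

theorem FJB_geom (K : ℕ) (u : ℝ) : FJB_D K u * (FJB_E u 1 - 1) = FJB_E u K - 1 := by
  induction K with
  | zero => simp [FJB_D, FJB_E_zero]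
  | succ n ih =>
    unfold FJB_D at ih ⊢
    rw [sum_range_succ, add_mul, ih]
    push_cast
    rw [FJB_E_add]
    ring

theorem FJB_D_bd (K : ℕ) (u : ℝ) (h0 : 0 < |u|) (h1 : |u| ≤ 1 / 2) :
    ‖FJB_D K u‖ ≤ 1 / (2 * |u|) := by
  have hg := congrArg norm (FJB_geom K u)
  rw [norm_mul] at hg
  have h2 : ‖FJB_E u K - 1‖ ≤ 2 := by
    refine (norm_sub_le _ _).trans ?_
    rw [FJB_E_norm, norm_one]
    norm_num
  have h3 : 4 * |u| ≤ ‖FJB_E u 1 - 1‖ := by
    have e : FJB_E u 1 = Complex.exp (Complex.I * ((2 * Real.pi * u : ℝ) : ℂ)) := by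
      unfold FJB_E
      congr 1
      push_cast
      ring
    rw [e, Complex.norm_exp_I_mul_ofReal_sub_one, Real.norm_eq_abs, abs_mul,
      show (2 * Real.pi * u / 2) = Real.pi * u by ring, abs_two]
    have h4 : |Real.sin (Real.pi * u)| = Real.sin (Real.pi * |u|) := by
      rcases abs_cases u with ⟨h, h'⟩ | ⟨h, h'⟩
      · rw [h, abs_of_nonneg]
        refine Real.sin_nonneg_of_nonneg_of_le_pi (by positivity) ?_
        rw [h] at h1
        nlinarith [Real.pi_pos]
      · rw [h]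
        rw [h] at h1
        have : 0 ≤ Real.sin (Real.pi * -u) :=
          Real.sin_nonneg_of_nonneg_of_le_pi (by nlinarith [Real.pi_pos]) (by nlinarith [Real.pi_pos])
        rw [mul_neg, Real.sin_neg] at this ⊢
        rw [abs_of_nonpos (by linarith)]
    rw [h4]
    have h5 := Real.mul_le_sin (x := Real.pi * |u|) (by positivity)
      (by nlinarith [Real.pi_pos])
    have h6 : 2 / Real.pi * (Real.pi * |u|) = 2 * |u| := by
      field_simp
    rw [h6] at h5
    linarith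
  have h7 : ‖FJB_D K u‖ * (4 * |u|) ≤ 2 := by
    calc ‖FJB_D K u‖ * (4 * |u|) ≤ ‖FJB_D K u‖ * ‖FJB_E u 1 - 1‖ :=
          mul_le_mul_of_nonneg_left h3 (norm_nonneg _)
      _ ≤ 2 := by rw [hg]; exact h2
  rw [le_div_iff₀ (by positivity)]
  linarith

theorem FJB : FJB_stmt := by
  intro K hK
  have hK' : (0 : ℝ) < K := by exact_mod_cast hK
  refine ⟨fun u => ⟨?_, ?_, ?_, ?_, ?_⟩, fun u h0 h1 => ?_, ?_⟩
  · rw [FJB_eq K hK, Complex.ofReal_im]
  · rw [FJB_eq K hK, Complex.ofReal_re]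
    positivity
  · rw [FJB_eq K hK, Complex.ofReal_re, div_le_iff₀ hK', ← pow_two]
    exact pow_le_pow_left₀ (norm_nonneg _) (FJB_D_le K u) 2
  · rw [FJB_eq K hK, FJB_eq K hK]
    unfold FJB_D
    simp only [FJB_E_add_one]
  · rw [FJB_eq K hK, FJB_eq K hK]
    have : FJB_D K (-u) = (starRingEnd ℂ) (FJB_D K u) := by
      unfold FJB_D
      rw [map_sum]
      refine sum_congr rfl fun m _ => ?_
      rw [FJB_E_neg, FJB_E_conj]
    rw [this, Complex.norm_conj]
  · rw [FJB_eq K hK, Complex.ofReal_re]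
    have h2 := FJB_D_bd K u h0 h1
    have h3 : ‖FJB_D K u‖ ^ 2 ≤ (1 / (2 * |u|)) ^ 2 := pow_le_pow_left₀ (norm_nonneg _) h2 2
    have h4 : (1 / (2 * |u|)) ^ 2 = 1 / (4 * u ^ 2) := by
      rw [div_pow, mul_pow, sq_abs]
      norm_num
    have h5 : 1 / (4 * (K : ℝ) * u ^ 2) = 1 / (4 * u ^ 2) / K := by
      rw [div_div]
      congr 1
      ring
    rw [h5]
    exact div_le_div_of_nonneg_right (h4 ▸ h3) hK'.le
  · unfold fjk
    rw [intervalIntegral.integral_finsetSum]
    · rw [sum_eq_single (0 : ℤ)]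
      · simp
        norm_num
      · intro m _ hm
        rw [intervalIntegral.integral_const_mul]
        have hc : ((2 * Real.pi * m : ℝ) : ℂ) * Complex.I ≠ 0 := by
          refine mul_ne_zero ?_ Complex.I_ne_zero
          have : (2 * Real.pi * m : ℝ) ≠ 0 := by
            have := Real.pi_pos.ne'
            have hm' : (m : ℝ) ≠ 0 := by exact_mod_cast hm
            positivity
          exact_mod_cast this
        have e : ∀ u : ℝ, Complex.exp (((2 * Real.pi * m * u : ℝ) : ℂ) * Complex.I) =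
            Complex.exp ((((2 * Real.pi * m : ℝ) : ℂ) * Complex.I) * u) := by
          intro u
          congr 1
          push_cast
          ring
        simp_rw [e]
        rw [integral_exp_mul_complex hc]
        have e2 : Complex.exp ((((2 * Real.pi * m : ℝ) : ℂ) * Complex.I) * ((1 / 2 : ℝ) : ℂ)) =
            Complex.exp ((((2 * Real.pi * m : ℝ) : ℂ) * Complex.I) * ((-(1 / 2) : ℝ) : ℂ)) := by
          rw [Complex.exp_eq_exp_iff_exists_int]
          exact ⟨m, by push_cast; ring⟩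
        rw [e2, sub_self, zero_div, mul_zero]
      · intro h
        exact absurd (mem_Icc.mpr ⟨by omega, by omega⟩) h
    · intro m _
      apply Continuous.intervalIntegrable
      fun_prop

end Pool.Agent.BP
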